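import Mathlib

set_option autoImplicit false

open Polynomial Complex Set

namespace Pool.Agent.Results.MP_424c76_an.Rhombus

def shadow (P : ℂ[X]) : Set ℂ :=
  closure {z | ∃ n ≥ 1, ∃ m ≤ n * P.natDegree, (derivative^[m] (P ^ n)).IsRoot z}

def ConvexPos (P : ℂ[X]) : Prop :=
  P.roots.Nodup ∧ P.roots.card = P.natDegree ∧
    ∀ z ∈ P.rootSet ℂ, z ∉ convexHull ℝ (P.rootSet ℂ \ {z})

def Regular (P : ℂ[X]) : Prop :=
  ∃ c w : ℂ, P.rootSet ℂ =
    range fun k : ℕ => c + w * exp (((2 * Real.pi * k / P.natDegree : ℝ) : ℂ) * I)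

def ClosedDomain (S : Set ℂ) : Prop := ∃ U : Set ℂ, IsOpen U ∧ IsConnected U ∧ S = closure U

def RR (f : ℂ[X]) : Prop := f = 0 ∨ ∀ y, f.eval y = 0 → y.im = 0

theorem RR.deriv {f : ℂ[X]} (h : RR f) : RR (derivative f) := by
  rcases h with rfl | h
  · exact Or.inl (by simp)
  by_cases h0 : derivative f = 0
  · exact Or.inl h0
  refine Or.inr fun y hy => ?_
  have hd : 0 < f.degree := by
    by_contra h1
    exact h0 (derivative_of_natDegree_zero (natDegree_eq_zero_iff_degree_le_zero.2 (not_lt.1 h1)))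
  have h2 := rootSet_derivative_subset_convexHull_rootSet hd
    (mem_rootSet.2 ⟨h0, by rwa [coe_aeval_eq_eval]⟩)
  have h3 : Convex ℝ {z : ℂ | z.im = 0} := convex_hyperplane imLm.isLinear 0
  refine convexHull_min (fun z hz => ?_) h3 h2
  exact h z (by simpa [coe_aeval_eq_eval] using (mem_rootSet.1 hz).2)

theorem RR.odd {g : ℂ[X]} (h : RR g) : RR (g + 2 * X * derivative g) := by
  rcases h with rfl | h
  · exact Or.inl (by simp)
  have h1 : RR (X * g ^ 2) := Or.inr fun y hy => by
    simp only [eval_mul, eval_X, eval_pow, mul_eq_zero, pow_eq_zero_iff two_ne_zero] at hy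
    rcases hy with rfl | hy
    · rfl
    · exact h y hy
  have h2 : derivative (X * g ^ 2) = g * (g + 2 * X * derivative g) := by
    rw [derivative_mul, derivative_X, derivative_sq, map_ofNat]
    ring
  rcases h1.deriv with h3 | h3
  · rw [h2, mul_eq_zero] at h3
    rcases h3 with rfl | h3
    · exact Or.inl (by simp)
    · exact Or.inl h3
  · exact Or.inr fun y hy => h3 y (by rw [h2, eval_mul, hy, mul_zero])

def Inv (Q : ℂ[X]) : Prop := ∃ f, RR f ∧ (Q = f.comp (X ^ 2) ∨ Q = X * f.comp (X ^ 2))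

theorem Inv.deriv {Q : ℂ[X]} (h : Inv Q) : Inv (derivative Q) := by
  obtain ⟨f, hf, rfl | rfl⟩ := h
  · refine ⟨C 2 * derivative f, ?_, Or.inr ?_⟩
    · rcases hf.deriv with h | h
      · exact Or.inl (by simp [h])
      · exact Or.inr fun y hy => h y (by simpa using hy)
    · rw [derivative_comp, derivative_X_sq, mul_comp, C_comp]
      ring
  · refine ⟨_, hf.odd, Or.inl ?_⟩
    rw [derivative_mul, derivative_X, derivative_comp, derivative_X_sq, map_ofNat]
    simp only [add_comp, mul_comp, X_comp, ofNat_comp]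
    ring

theorem Inv.root {Q : ℂ[X]} (h : Inv Q) (h0 : Q ≠ 0) {z : ℂ} (hz : Q.IsRoot z) :
    z.re = 0 ∨ z.im = 0 := by
  obtain ⟨f, hf, hQ⟩ := h
  rcases hf with rfl | hf
  · rcases hQ with rfl | rfl <;> simp at h0
  have key : f.eval (z ^ 2) = 0 → z.re = 0 ∨ z.im = 0 := fun h => by
    have := hf _ h
    rw [sq, mul_im, mul_comm z.im, ← two_mul] at this
    simpa using this
  rcases hQ with rfl | rfl
  · exact key (by simpa [eval_comp] using hz)
  · simp only [IsRoot.def, eval_mul, eval_X, eval_comp, eval_pow, mul_eq_zero] at hz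
    rcases hz with rfl | hz
    · simp
    · exact key hz

theorem iter_ne {Q : ℂ[X]} (h0 : Q ≠ 0) {m : ℕ} (hm : m ≤ Q.natDegree) :
    derivative^[m] Q ≠ 0 := by
  intro h
  have := congrArg (fun p => coeff p (Q.natDegree - m)) h
  simp only [coeff_iterate_derivative, Nat.sub_add_cancel hm, coeff_zero, nsmul_eq_mul,
    mul_eq_zero, Nat.cast_eq_zero, Nat.descFactorial_eq_zero_iff_lt] at this
  rcases this with h1 | h1
  · omega
  · exact h0 (leadingCoeff_eq_zero.1 h1)

theorem result (a : ℝ) (ha : 0 < a) (h1 : a ≠ 1) (P : ℂ[X])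
    (hP : P = (X ^ 2 - 1) * (X ^ 2 + C ((a : ℂ) ^ 2))) :
    P.natDegree = 4 ∧ ConvexPos P ∧ ¬ Regular P ∧ ¬ ClosedDomain (shadow P) := by
  have hf : P = (X - C 1) * (X - C (-1)) * (X - C (a * I)) * (X - C (-(a * I))) := by
    have : C ((a : ℂ) ^ 2) = -(C (a * I)) ^ 2 := by
      rw [← map_pow, ← map_neg, mul_pow, I_sq]
      simp
    rw [hP, this, map_neg, map_neg, map_one]
    ring
  have hne : ∀ c : ℂ, X - C c ≠ 0 := X_sub_C_ne_zero
  have h0 : P ≠ 0 := by
    rw [hf]
    exact mul_ne_zero (mul_ne_zero (mul_ne_zero (hne _) (hne _)) (hne _)) (hne _)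
  have hr : P.roots = {1, -1, a * I, -(a * I)} := by
    rw [hf, roots_mul (hf ▸ h0), roots_mul (mul_ne_zero (mul_ne_zero (hne _) (hne _)) (hne _)),
      roots_mul (mul_ne_zero (hne _) (hne _))]
    simp only [roots_X_sub_C]
    rfl
  have hd : P.natDegree = 4 := by
    rw [hf, natDegree_mul (mul_ne_zero (mul_ne_zero (hne _) (hne _)) (hne _)) (hne _),
      natDegree_mul (mul_ne_zero (hne _) (hne _)) (hne _), natDegree_mul (hne _) (hne _)]
    simp only [natDegree_X_sub_C]
  have hs : ∀ z, z ∈ P.rootSet ℂ ↔ z = 1 ∨ z = -1 ∨ z = a * I ∨ z = -(a * I) := by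
    intro z
    rw [mem_rootSet, coe_aeval_eq_eval, ← IsRoot.def, ← mem_roots', hr]
    simp
  refine ⟨hd, ⟨?_, by rw [hr, hd]; rfl, fun z hz hc => ?_⟩, ?_, ?_⟩
  · rw [hr]
    simp [Complex.ext_iff, ha.ne', eq_neg_iff_add_eq_zero]
  · rcases (hs z).1 hz with rfl | rfl | rfl | rfl
    · have := convexHull_min (fun w hw => ?_) (convex_halfSpace_re_le 0) hc
      · norm_num at this
      · rcases (hs w).1 hw.1 with rfl | rfl | rfl | rfl
        · exact absurd rfl hw.2
        all_goals simp
    · have := convexHull_min (fun w hw => ?_) (convex_halfSpace_re_ge 0) hc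
      · norm_num at this
      · rcases (hs w).1 hw.1 with rfl | rfl | rfl | rfl
        · simp
        · exact absurd rfl hw.2
        all_goals simp
    · have := convexHull_min (fun w hw => ?_) (convex_halfSpace_im_le 0) hc
      · simp at this
        linarith
      · rcases (hs w).1 hw.1 with rfl | rfl | rfl | rfl
        · simp
        · simp
        · exact absurd rfl hw.2
        · simp [ha.le]
    · have := convexHull_min (fun w hw => ?_) (convex_halfSpace_im_ge 0) hc
      · simp at this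
        linarith
      · rcases (hs w).1 hw.1 with rfl | rfl | rfl | rfl
        · simp
        · simp
        · simp [ha.le]
        · exact absurd rfl hw.2
  · rintro ⟨c, w, h⟩
    have key : ∀ z ∈ P.rootSet ℂ, (z - c).re * (z - c).re + (z - c).im * (z - c).im = ‖w‖ ^ 2 := by
      intro z hz
      rw [h] at hz
      obtain ⟨k, rfl⟩ := hz
      rw [← normSq_apply, normSq_eq_norm_sq, add_sub_cancel_left, norm_mul, norm_exp_ofReal_mul_I,
        mul_one]
    have k1 := key 1 ((hs _).2 (by simp))
    have k2 := key (-1) ((hs _).2 (by simp))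
    have k3 := key (a * I) ((hs _).2 (by simp))
    have k4 := key (-(a * I)) ((hs _).2 (by simp))
    simp at k1 k2 k3 k4
    have : (a - 1) * (a + 1) = 0 := by nlinarith
    rcases mul_eq_zero.1 this with h2 | h2
    · exact h1 (by linarith)
    · linarith
  · rintro ⟨U, hU, hc, h⟩
    have hcl : IsClosed {z : ℂ | z.re = 0 ∨ z.im = 0} :=
      (isClosed_eq continuous_re continuous_const).union (isClosed_eq continuous_im continuous_const)
    have hsub : shadow P ⊆ {z : ℂ | z.re = 0 ∨ z.im = 0} := by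
      refine closure_minimal ?_ hcl
      rintro z ⟨n, -, m, hm, hz⟩
      have hI : Inv (P ^ n) := by
        refine ⟨((X - 1) * (X + C ((a : ℂ) ^ 2))) ^ n, Or.inr fun y hy => ?_, Or.inl ?_⟩
        · rw [eval_pow] at hy
          have := pow_eq_zero_iff'.1 hy |>.1
          simp only [eval_mul, eval_sub, eval_X, eval_one, eval_add, eval_C, mul_eq_zero] at this
          rcases this with h2 | h2
          · rw [sub_eq_zero.1 h2, one_im]
          · rw [eq_neg_of_add_eq_zero_left h2, ← ofReal_pow, neg_im, ofReal_im, neg_zero]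
        · rw [hP]
          simp only [pow_comp, mul_comp, sub_comp, add_comp, X_comp, C_comp, one_comp]
      refine Inv.root ?_ (iter_ne (pow_ne_zero n h0) (by rwa [natDegree_pow])) hz
      exact Function.Iterate.rec Inv hI (fun _ h => h.deriv) m
    have hd1 : Dense (re ⁻¹' {0}ᶜ) := (dense_compl_singleton (0 : ℝ)).preimage isOpenMap_re
    have hd2 : Dense (im ⁻¹' {0}ᶜ) := (dense_compl_singleton (0 : ℝ)).preimage isOpenMap_im
    obtain ⟨z, hz, hz1, hz2⟩ := (hd1.inter_of_isOpen_left hd2
      (isOpen_compl_singleton.preimage continuous_re)).inter_open_nonempty U hU hc.nonempty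
    rcases hsub (h ▸ subset_closure hz) with h2 | h2
    · exact hz1 h2
    · exact hz2 h2

end Pool.Agent.Results.MP_424c76_an.Rhombus
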